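import Mathlib

namespace Pool.Agent.R394.Grid

open MeasureTheory Set

/-- A convex set containing two vertical segments on consecutive abscissas has, over the strip
between them, at least the area of the trapezoid they span. -/
theorem trap (K : Set (ℝ × ℝ)) (hK : Convex ℝ K) (i u v u' v' : ℝ) (huv : u ≤ v) (huv' : u' ≤ v')
    (h1 : (i, u) ∈ K) (h2 : (i, v) ∈ K) (h3 : (i + 1, u') ∈ K) (h4 : (i + 1, v') ∈ K) :
    ENNReal.ofReal ((v - u + (v' - u')) / 2) ≤ volume (K ∩ (Ioc i (i + 1) ×ˢ (univ : Set ℝ))) := by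
  set f : ℝ → ℝ := fun x => u + (x - i) * (u' - u) with hf
  set g : ℝ → ℝ := fun x => v + (x - i) * (v' - v) with hg
  have hsub : regionBetween f g (Ioc i (i + 1)) ⊆ K ∩ (Ioc i (i + 1) ×ˢ (univ : Set ℝ)) := by
    rintro ⟨x, y⟩ ⟨hx, hy⟩
    simp only at hx hy
    refine ⟨?_, hx, trivial⟩
    have hx0 : 0 ≤ x - i := by linarith [hx.1]
    have hx1 : 0 ≤ 1 - (x - i) := by linarith [hx.2]
    have hlow : (x, f x) ∈ K := by
      have := hK h1 h3 hx1 hx0 (by ring)
      convert this using 1
      ext
      · simp; ring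
      · simp [hf]; ring
    have hhigh : (x, g x) ∈ K := by
      have := hK h2 h4 hx1 hx0 (by ring)
      convert this using 1
      ext
      · simp; ring
      · simp [hg]; ring
    have hfg : f x < g x := lt_trans hy.1 hy.2
    set t := (y - f x) / (g x - f x) with ht
    have hgf : 0 < g x - f x := by linarith
    have ht0 : 0 ≤ t := div_nonneg (by linarith [hy.1]) hgf.le
    have ht1 : 0 ≤ 1 - t := by
      rw [ht, sub_nonneg, div_le_one hgf]; linarith [hy.2]
    have := hK hlow hhigh ht1 ht0 (by ring)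
    convert this using 1
    ext
    · simp; ring
    · simp only [Prod.smul_mk, Prod.mk_add_mk, smul_eq_mul]
      have : t * (g x - f x) = y - f x := by rw [ht]; field_simp
      linarith
  refine le_trans ?_ (measure_mono hsub)
  have hfc : Continuous f := by rw [hf]; fun_prop
  have hgc : Continuous g := by rw [hg]; fun_prop
  have hvol : volume (regionBetween f g (Ioc i (i + 1)))
      = ENNReal.ofReal (∫ y in Ioc i (i + 1), (g - f) y) := by
    rw [Measure.volume_eq_prod]
    refine volume_regionBetween_eq_integral ?_ ?_ measurableSet_Ioc ?_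
    · exact (hfc.integrableOn_Icc).mono_set Ioc_subset_Icc_self
    · exact (hgc.integrableOn_Icc).mono_set Ioc_subset_Icc_self
    · intro x hx
      have hx0 : 0 ≤ x - i := by linarith [hx.1]
      have hx1 : 0 ≤ 1 - (x - i) := by linarith [hx.2]
      have : g x - f x = (1 - (x - i)) * (v - u) + (x - i) * (v' - u') := by
        simp only [hf, hg]; ring
      have h2 : 0 ≤ (1 - (x - i)) * (v - u) := mul_nonneg hx1 (by linarith)
      have h3 : 0 ≤ (x - i) * (v' - u') := mul_nonneg hx0 (by linarith)
      linarith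
  rw [hvol]
  apply le_of_eq
  congr 1
  rw [← intervalIntegral.integral_of_le (by linarith)]
  have : ∀ x, (g - f) x = (v - u) + (x - i) * ((v' - u') - (v - u)) := by
    intro x; simp only [Pi.sub_apply, hf, hg]; ring
  simp only [this]
  rw [intervalIntegral.integral_add (by simp) (by
    apply Continuous.intervalIntegrable; fun_prop)]
  rw [intervalIntegral.integral_mul_const]
  have : ∫ x in i..(i + 1), (x - i) = 1 / 2 := by
    rw [intervalIntegral.integral_comp_sub_right (fun x => x) i]
    simp
  rw [this]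
  simp
  ring

/-- Sum of trapezoids over consecutive integer strips. -/
theorem area_ge_sum (K : Set (ℝ × ℝ)) (hK : Convex ℝ K) (hKm : MeasurableSet K)
    (u v : ℕ → ℝ) (a b : ℕ) (huv : ∀ i, a ≤ i → i ≤ b → u i ≤ v i)
    (hu : ∀ i, a ≤ i → i ≤ b → ((i : ℝ), u i) ∈ K) (hv : ∀ i, a ≤ i → i ≤ b → ((i : ℝ), v i) ∈ K) :
    ENNReal.ofReal (∑ i ∈ Finset.Ico a b, (v i - u i + (v (i + 1) - u (i + 1))) / 2)
      ≤ volume K := by
  rw [ENNReal.ofReal_sum_of_nonneg]
  · calc ∑ i ∈ Finset.Ico a b, ENNReal.ofReal ((v i - u i + (v (i + 1) - u (i + 1))) / 2)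
        ≤ ∑ i ∈ Finset.Ico a b, volume (K ∩ (Ioc (i : ℝ) (i + 1) ×ˢ (univ : Set ℝ))) := by
          refine Finset.sum_le_sum fun i hi => ?_
          rw [Finset.mem_Ico] at hi
          have h3 := hu (i + 1) (by omega) (by omega)
          have h4 := hv (i + 1) (by omega) (by omega)
          push_cast at h3 h4
          exact trap K hK i (u i) (v i) (u (i + 1)) (v (i + 1)) (huv i (by omega) (by omega))
            (huv (i + 1) (by omega) (by omega)) (hu i (by omega) (by omega))
            (hv i (by omega) (by omega)) h3 h4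
      _ = volume (⋃ i ∈ Finset.Ico a b, K ∩ (Ioc (i : ℝ) (i + 1) ×ˢ (univ : Set ℝ))) := by
          rw [measure_biUnion_finset]
          · intro i _ j _ hij
            rw [Function.onFun, Set.disjoint_left]
            rintro ⟨x, y⟩ ⟨_, hx, _⟩ ⟨_, hx', _⟩
            simp only [mem_Ioc] at hx hx'
            apply hij
            rcases lt_trichotomy i j with h | h | h
            · exfalso
              have : (i : ℝ) + 1 ≤ j := by exact_mod_cast h
              linarith [hx.2, hx'.1]
            · exact h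
            · exfalso
              have : (j : ℝ) + 1 ≤ i := by exact_mod_cast h
              linarith [hx'.2, hx.1]
          · intro i _
            exact hKm.inter (measurableSet_Ioc.prod MeasurableSet.univ)
      _ ≤ volume K := by
          apply measure_mono
          intro p hp
          simp only [mem_iUnion] at hp
          obtain ⟨i, _, h⟩ := hp
          exact h.1
  · intro i hi
    rw [Finset.mem_Ico] at hi
    have h1 := huv i (by omega) (by omega)
    have h2 := huv (i + 1) (by omega) (by omega)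
    linarith

/-- Embedding of the lattice into the plane. -/
def emb (p : ℕ × ℕ) : ℝ × ℝ := ((p.1 : ℝ), (p.2 : ℝ))

theorem emb_injective : Function.Injective emb := by
  rintro ⟨a, b⟩ ⟨c, d⟩ h
  simp only [emb, Prod.mk.injEq, Nat.cast_inj] at h
  ext <;> simp [h.1, h.2]

/-- Key lemma: the hull of `k` points of the `m × m` lattice grid has area at least
`k - 2 m + 1`. -/
theorem hull_area (m : ℕ) (Y : Finset (ℕ × ℕ)) (hY : ∀ p ∈ Y, p.1 < m ∧ p.2 < m)
    (hne : Y.Nonempty) :
    ENNReal.ofReal ((Y.card : ℝ) - 2 * m + 1) ≤ volume (convexHull ℝ (emb '' (Y : Set (ℕ × ℕ)))) := by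
  classical
  set K := convexHull ℝ (emb '' (Y : Set (ℕ × ℕ))) with hKdef
  have hK : Convex ℝ K := convex_convexHull ℝ _
  have hfin : (emb '' (Y : Set (ℕ × ℕ))).Finite := Y.finite_toSet.image _
  have hKm : MeasurableSet K := (hfin.isCompact_convexHull (𝕜 := ℝ)).isClosed.measurableSet
  have hmem : ∀ p ∈ Y, emb p ∈ K := fun p hp => subset_convexHull ℝ _ ⟨p, hp, rfl⟩
  set C := Y.image Prod.fst with hC
  have hCne : C.Nonempty := hne.image _
  set a := C.min' hCne with ha
  set b := C.max' hCne with hb
  have haC : a ∈ C := Finset.min'_mem _ _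
  have hbC : b ∈ C := Finset.max'_mem _ _
  obtain ⟨pa, hpaY, hpa⟩ := Finset.mem_image.1 haC
  obtain ⟨pb, hpbY, hpb⟩ := Finset.mem_image.1 hbC
  have hab : a ≤ b := Finset.min'_le _ _ hbC
  have hbm : b < m := by rw [← hpb]; exact (hY pb hpbY).1
  let c : ℕ → ℕ := fun i => (Y.filter (fun p => p.1 = i)).card
  have hcle : ∀ i, c i ≤ m := by
    intro i
    calc c i ≤ (Finset.range m).card := by
          refine Finset.card_le_card_of_injOn Prod.snd ?_ ?_
          · intro p hp
            simp only [Finset.coe_filter, mem_setOf_eq] at hp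
            simp only [Finset.coe_range, mem_Iio]
            exact (hY p hp.1).2
          · rintro ⟨x, y⟩ hp ⟨x', y'⟩ hq h
            simp only [Finset.coe_filter, mem_setOf_eq] at hp hq h
            ext
            · simp [hp.2, hq.2]
            · simp [h]
      _ = m := by simp
  -- sections
  have hsec : ∀ i, a ≤ i → i ≤ b → ∃ u v : ℝ, u ≤ v ∧ ((i : ℝ), u) ∈ K ∧ ((i : ℝ), v) ∈ K ∧
      (c i : ℝ) - 1 ≤ v - u := by
    intro i hai hib
    by_cases hci : (Y.filter (fun p => p.1 = i)).Nonempty
    · set D := (Y.filter (fun p => p.1 = i)).image Prod.snd with hD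
      have hDne : D.Nonempty := hci.image _
      obtain ⟨p, hp, hp2⟩ := Finset.mem_image.1 (Finset.min'_mem D hDne)
      obtain ⟨q, hq, hq2⟩ := Finset.mem_image.1 (Finset.max'_mem D hDne)
      rw [Finset.mem_filter] at hp hq
      refine ⟨p.2, q.2, ?_, ?_, ?_, ?_⟩
      · rw [hp2, hq2]
        exact_mod_cast Finset.min'_le _ _ (Finset.max'_mem D hDne)
      · have := hmem p hp.1
        simpa [emb, hp.2] using this
      · have := hmem q hq.1
        simpa [emb, hq.2] using this
      · have hcard : c i ≤ (Finset.Icc p.2 q.2).card := by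
          refine Finset.card_le_card_of_injOn Prod.snd ?_ ?_
          · intro r hr
            have hr' : r ∈ Y.filter (fun p => p.1 = i) := hr
            simp only [Finset.coe_Icc, mem_Icc]
            have hrD : r.2 ∈ D := Finset.mem_image_of_mem _ hr'
            rw [hp2, hq2]
            exact ⟨Finset.min'_le _ _ hrD, Finset.le_max' _ _ hrD⟩
          · rintro ⟨x, y⟩ hp ⟨x', y'⟩ hq h
            simp only [Finset.coe_filter, mem_setOf_eq] at hp hq h
            ext
            · simp [hp.2, hq.2]
            · simp [h]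
        rw [Nat.card_Icc] at hcard
        have hle : p.2 ≤ q.2 := by
          rw [hp2, hq2]
          exact Finset.min'_le _ _ (Finset.max'_mem D hDne)
        have : c i + p.2 ≤ q.2 + 1 := by omega
        have : (c i : ℝ) + p.2 ≤ q.2 + 1 := by exact_mod_cast this
        linarith
    · have hc0 : c i = 0 := by
        simp only [c, Finset.card_eq_zero]
        exact Finset.not_nonempty_iff_eq_empty.1 hci
      have hne1 : a ≠ i := by
        intro h
        apply hci
        exact ⟨pa, by rw [Finset.mem_filter]; exact ⟨hpaY, by rw [hpa, h]⟩⟩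
      have hne2 : a < b := by omega
      have hba : (0 : ℝ) < (b : ℝ) - a := by
        have : (a : ℝ) < b := by exact_mod_cast hne2
        linarith
      set t : ℝ := ((i : ℝ) - a) / ((b : ℝ) - a) with ht
      have hai' : (a : ℝ) ≤ i := by exact_mod_cast hai
      have hib' : (i : ℝ) ≤ b := by exact_mod_cast hib
      have ht0 : 0 ≤ t := div_nonneg (by linarith) hba.le
      have ht1 : 0 ≤ 1 - t := by rw [ht, sub_nonneg, div_le_one hba]; linarith
      have h := hK (hmem pa hpaY) (hmem pb hpbY) ht1 ht0 (by ring)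
      have hfst : (1 - t) * (pa.1 : ℝ) + t * (pb.1 : ℝ) = i := by
        rw [hpa, hpb]
        have : t * ((b : ℝ) - a) = i - a := by rw [ht]; field_simp
        linarith
      refine ⟨(1 - t) * (pa.2 : ℝ) + t * (pb.2 : ℝ), (1 - t) * (pa.2 : ℝ) + t * (pb.2 : ℝ),
        le_refl _, ?_, ?_, ?_⟩
      · simpa [emb, hfst] using h
      · simpa [emb, hfst] using h
      · rw [hc0]; norm_num
  choose! u v huv hu hv hcv using hsec
  have hA := area_ge_sum K hK hKm u v a b huv hu hv
  refine le_trans (ENNReal.ofReal_le_ofReal ?_) hA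
  -- the count
  have hcount : Y.card = ∑ i ∈ Finset.Icc a b, c i := by
    rw [Finset.card_eq_sum_card_fiberwise (f := Prod.fst) (t := Finset.Icc a b)]
    intro p hp
    have : p.1 ∈ C := Finset.mem_image_of_mem _ hp
    simp only [Finset.coe_Icc, mem_Icc]
    exact ⟨Finset.min'_le _ _ this, Finset.le_max' _ _ this⟩
  have hsum1 : ∑ i ∈ Finset.Icc a b, c i = ∑ i ∈ Finset.Ico a b, c i + c b := by
    have := Finset.sum_Ioc_consecutive (M := ℕ)
    rw [← Finset.sum_Ico_succ_top hab]
    congr 1
  have hsum2 : ∑ i ∈ Finset.Icc a b, c i = c a + ∑ i ∈ Finset.Ico a b, c (i + 1) := by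
    rw [Finset.sum_Ico_add' (fun i => c i) a b 1, ← Finset.sum_eq_sum_Ico_succ_bot (by omega)]
    congr 1
  have e1 : ((Y.card : ℕ) : ℝ) = (∑ i ∈ Finset.Ico a b, (c i : ℝ)) + c b := by
    rw [hcount, hsum1]; push_cast; rfl
  have e2 : ((Y.card : ℕ) : ℝ) = c a + ∑ i ∈ Finset.Ico a b, (c (i + 1) : ℝ) := by
    rw [hcount, hsum2]; push_cast; rfl
  have hle : ∑ i ∈ Finset.Ico a b, (((c i : ℝ) - 1) + ((c (i + 1) : ℝ) - 1)) / 2
      ≤ ∑ i ∈ Finset.Ico a b, (v i - u i + (v (i + 1) - u (i + 1))) / 2 := by
    refine Finset.sum_le_sum fun i hi => ?_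
    rw [Finset.mem_Ico] at hi
    have h1 := hcv i (by omega) (by omega)
    have h2 := hcv (i + 1) (by omega) (by omega)
    linarith
  refine le_trans ?_ hle
  have hexp : ∑ i ∈ Finset.Ico a b, (((c i : ℝ) - 1) + ((c (i + 1) : ℝ) - 1)) / 2
      = ((∑ i ∈ Finset.Ico a b, (c i : ℝ)) + ∑ i ∈ Finset.Ico a b, (c (i + 1) : ℝ)) / 2
        - ((b : ℝ) - a) := by
    rw [← Finset.sum_add_distrib, Finset.sum_div]
    have : ((b : ℝ) - a) = ∑ i ∈ Finset.Ico a b, (1 : ℝ) := by
      simp [Nat.cast_sub hab]
    rw [this, ← Finset.sum_sub_distrib]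
    refine Finset.sum_congr rfl fun i _ => ?_
    ring
  rw [hexp]
  have h1 : (c a : ℝ) ≤ m := by exact_mod_cast hcle a
  have h2 : (c b : ℝ) ≤ m := by exact_mod_cast hcle b
  have h3 : (b : ℝ) + 1 ≤ m := by exact_mod_cast hbm
  have h4 : (0 : ℝ) ≤ a := Nat.cast_nonneg a
  linarith

end Pool.Agent.R394.Grid
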